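import Pool.Agent.H1.Horo.Final

/-!
# The horocycle flow is not topologically recurrent on strata

Translation surfaces, their neighbourhoods in period coordinates and the horocycle action on them are
defined in `Pool/Agent/H1/Horo/Defs.lean`.
-/

namespace Pool.Agent.Results.MP_0142f2_an.NotRecurrent

open Pool.Agent.H1.Horo

/-- There are a translation surface `X`, `ε > 0` and `S` such that for every `s` with `|s| > S` the
surface `u(s) X` is not in the neighbourhood of radius `ε` of `X`. -/
theorem result : ∃ (X : TranslationSurface) (ε : ℝ), 0 < ε ∧ ∃ S : ℝ, ∀ s : ℝ, S < |s| →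
    ¬ X.Close ε X.P (shear s X.z) := by
  obtain ⟨X, hX⟩ := exists_not_recurrent
  unfold TranslationSurface.Recurrent at hX
  push Not at hX
  obtain ⟨ε, hε, S, h⟩ := hX
  exact ⟨X, ε, hε, S, h⟩

end Pool.Agent.Results.MP_0142f2_an.NotRecurrent
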